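import Mathlib

-- merged part: Pool.Agent.Work.MP_ede3c6_co.Spread
section
set_option autoImplicit false

namespace Pool.Agent.Work.MP_ede3c6_co

open Finset

/-- A path `x 0, …, x (k-1)` in the cube on coordinate set `ι` of spread `σ`. -/
def SpreadOn (ι : Type) [Fintype ι] (σ k : ℕ) : Prop :=
  ∃ x : ℕ → (ι → ZMod 2), (∀ i, i + 1 < k → hammingDist (x i) (x (i + 1)) = 1) ∧
    ∀ i j, i < j → j < k → min (j - i) σ ≤ hammingDist (x i) (x j)

theorem hd_sum {α β : Type} [Fintype α] [Fintype β] (x x' : α → ZMod 2) (y y' : β → ZMod 2) :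
    hammingDist (Sum.elim x y) (Sum.elim x' y') = hammingDist x x' + hammingDist y y' := by
  simp only [hammingDist, Finset.card_filter]
  rw [Fintype.sum_sum_type]
  rfl

theorem hd_equiv {α β : Type} [Fintype α] [Fintype β] (e : α ≃ β) (x x' : β → ZMod 2) :
    hammingDist (x ∘ e) (x' ∘ e) = hammingDist x x' := by
  simp only [hammingDist, Finset.card_filter]
  exact Equiv.sum_comp e (fun i => if x i ≠ x' i then 1 else 0)

theorem SpreadOn.equiv {α β : Type} [Fintype α] [Fintype β] {σ k : ℕ} (e : α ≃ β)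
    (h : SpreadOn β σ k) : SpreadOn α σ k := by
  obtain ⟨x, h1, h2⟩ := h
  refine ⟨fun i => x i ∘ e, fun i hi => ?_, fun i j hij hj => ?_⟩
  · rw [hd_equiv]; exact h1 i hi
  · rw [hd_equiv]; exact h2 i j hij hj

theorem SpreadOn.mono_k {α : Type} [Fintype α] {σ k k' : ℕ} (hk : k' ≤ k)
    (h : SpreadOn α σ k) : SpreadOn α σ k' := by
  obtain ⟨x, h1, h2⟩ := h
  exact ⟨x, fun i hi => h1 i (by omega), fun i j hij hj => h2 i j hij (by omega)⟩

theorem SpreadOn.inl {α : Type} (β : Type) [Fintype α] [Fintype β] {σ k : ℕ}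
    (h : SpreadOn α σ k) : SpreadOn (α ⊕ β) σ k := by
  obtain ⟨x, h1, h2⟩ := h
  refine ⟨fun i => Sum.elim (x i) 0, fun i hi => ?_, fun i j hij hj => ?_⟩
  · rw [hd_sum, hammingDist_self, h1 i hi]
  · rw [hd_sum, hammingDist_self]; exact h2 i j hij hj

theorem SpreadOn.to_fin {α : Type} [Fintype α] {σ k n : ℕ} (hn : Fintype.card α ≤ n)
    (h : SpreadOn α σ k) : SpreadOn (Fin n) σ k := by
  refine (h.inl (Fin (n - Fintype.card α))).equiv (Fintype.equivOfCardEq ?_)
  simp only [Fintype.card_fin, Fintype.card_sum]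
  omega

/-- threshold vector -/
def thr (r s : ℕ) : Fin r → ZMod 2 := fun c => if (c : ℕ) < s then 1 else 0

theorem hd_thr (r s t : ℕ) (hst : s ≤ t) (ht : t ≤ r) :
    hammingDist (thr r s) (thr r t) = t - s := by
  unfold hammingDist
  rw [← Nat.card_Ico s t]
  apply Finset.card_bij (fun (c : Fin r) _ => (c : ℕ))
  · intro c hc
    simp only [Finset.mem_filter, Finset.mem_univ, true_and, thr] at hc
    rw [Finset.mem_Ico]
    by_cases h1 : (c : ℕ) < s <;> by_cases h2 : (c : ℕ) < t <;> simp [h1, h2] at hc <;> omega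
  · intro a _ b _ h
    exact Fin.ext h
  · intro b hb
    rw [Finset.mem_Ico] at hb
    refine ⟨⟨b, by omega⟩, ?_, rfl⟩
    have h1 : ¬ b < s := by omega
    simp [thr, h1, hb.2]

theorem spread_geodesic (σ r : ℕ) : SpreadOn (Fin r) σ (r + 1) := by
  refine ⟨thr r, fun i hi => ?_, fun i j hij hj => ?_⟩
  · rw [hd_thr r i (i + 1) (by omega) (by omega)]; omega
  · rw [hd_thr r i j (by omega) (by omega)]; exact min_le_left _ _

theorem SpreadOn.double {α : Type} [Fintype α] {σ k : ℕ} (hσ : 1 ≤ σ) (hk : 1 ≤ k)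
    (h : SpreadOn α σ k) : SpreadOn (α ⊕ Fin σ) σ (2 * k + σ - 1) := by
  obtain ⟨x, h1, h2⟩ := h
  have h2' : ∀ i j, i < k → j < k → σ ≤ hammingDist (x i) (x j) ∨
      (j ≤ i + hammingDist (x i) (x j) ∧ i ≤ j + hammingDist (x i) (x j)) := by
    intro i j hi hj
    rcases lt_trichotomy i j with hij | hij | hij
    · have := h2 i j hij hj
      omega
    · subst hij; simp
    · have := h2 j i hij hi
      rw [hammingDist_comm]; omega
  obtain ⟨b, l, hb⟩ : ∃ b l : ℕ → ℕ, ∀ t, t < 2 * k + σ - 1 →
      (t < k ∧ b t = t ∧ l t = 0) ∨ (k ≤ t ∧ t < k + σ ∧ b t + 1 = k ∧ l t + k = t + 1) ∨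
        (k + σ ≤ t ∧ b t + t + 2 = 2 * k + σ ∧ l t = σ) := by
    refine ⟨fun t => if t < k then t else if t < k + σ then k - 1 else 2 * k + σ - 2 - t,
      fun t => if t < k then 0 else if t < k + σ then t + 1 - k else σ, fun t ht => ?_⟩
    by_cases c1 : t < k
    · exact Or.inl ⟨c1, if_pos c1, if_pos c1⟩
    · by_cases c2 : t < k + σ
      · refine Or.inr (Or.inl ⟨not_lt.1 c1, c2, ?_, ?_⟩) <;> simp only [if_neg c1, if_pos c2] <;> omega
      · refine Or.inr (Or.inr ⟨not_lt.1 c2, ?_, ?_⟩) <;> simp only [if_neg c1, if_neg c2]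
        omega
  refine ⟨fun t => Sum.elim (x (b t)) (thr σ (l t)), fun i hi => ?_, fun i j hij hj => ?_⟩
  · have p1 := hb i (by omega)
    have p2 := hb (i + 1) hi
    rw [hd_sum, hd_thr σ (l i) (l (i + 1)) (by omega) (by omega)]
    rcases lt_or_ge (i + 1) k with hA | hA
    · have e1 : b i = i := by omega
      have e2 : b (i + 1) = i + 1 := by omega
      rw [e1, e2, h1 i hA]; omega
    · rcases lt_or_ge (i + 1) (k + σ) with hB | hB
      · have e1 : b i = b (i + 1) := by omega
        rw [e1, hammingDist_self]; omega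
      · have e1 : b i = b (i + 1) + 1 := by omega
        have e3 : b (i + 1) + 1 < k := by omega
        rw [e1, hammingDist_comm, h1 _ e3]; omega
  · have p1 := hb i (by omega)
    have p2 := hb j hj
    rw [hd_sum, hd_thr σ (l i) (l j) (by omega) (by omega)]
    have := h2' (b i) (b j) (by omega) (by omega)
    rw [min_le_iff]
    rcases p1 with ⟨_, _, _⟩ | ⟨_, _, _, _⟩ | ⟨_, _, _⟩ <;>
      rcases p2 with ⟨_, _, _⟩ | ⟨_, _, _, _⟩ | ⟨_, _, _⟩ <;> omega

theorem spread_pow (σ r m : ℕ) (hσ : 1 ≤ σ) :
    SpreadOn (Fin (r + σ * m)) σ ((r + σ) * 2 ^ m + 1 - σ) := by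
  induction m with
  | zero =>
    have : (r + σ) * 2 ^ 0 + 1 - σ = r + 1 := by simp; omega
    rw [this]
    simpa using spread_geodesic σ r
  | succ m ih =>
    have hp : 1 ≤ 2 ^ m := Nat.one_le_two_pow
    have hq : r + σ ≤ (r + σ) * 2 ^ m := Nat.le_mul_of_pos_right _ hp
    have := ih.double hσ (by omega)
    refine (this.to_fin ?_).mono_k ?_
    · simp only [Fintype.card_sum, Fintype.card_fin]; ring_nf; omega
    · rw [pow_succ, ← mul_assoc]; omega

/-- compress a sequence with stalls to a spread-3 path -/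
theorem spread_of_ticks {α : Type} [Fintype α] (w : ℕ → (α → ZMod 2)) (cnt : ℕ → ℕ) (T : ℕ)
    (h0 : cnt 0 = 0)
    (hw : ∀ t, t < T → (w (t + 1) = w t ∧ cnt (t + 1) ≤ cnt t) ∨
      (hammingDist (w t) (w (t + 1)) = 1 ∧ cnt (t + 1) ≤ cnt t + 1 ∧
        ∀ s, s ≤ t → 3 ≤ hammingDist (w s) (w (t + 1)) ∨
          hammingDist (w s) (w t) + 1 ≤ hammingDist (w s) (w (t + 1)))) :
    SpreadOn α 3 (cnt T + 1) := by
  have key : ∀ t, t ≤ T → ∃ (len : ℕ) (x : ℕ → (α → ZMod 2)), cnt t ≤ len ∧ x len = w t ∧
      (∀ i, i ≤ len → ∃ s, s ≤ t ∧ x i = w s) ∧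
      (∀ i, i + 1 < len + 1 → hammingDist (x i) (x (i + 1)) = 1) ∧
      ∀ i j, i < j → j < len + 1 → min (j - i) 3 ≤ hammingDist (x i) (x j) := by
    intro t
    induction t with
    | zero =>
      intro _
      exact ⟨0, fun _ => w 0, by omega, rfl, fun i _ => ⟨0, le_rfl, rfl⟩, fun i hi => by omega,
        fun i j hij hj => by omega⟩
    | succ t ih =>
      intro ht
      obtain ⟨len, x, hc, hl, hs, h1, h2⟩ := ih (by omega)
      rcases hw t (by omega) with ⟨he, hc'⟩ | ⟨hd, hc', hfar⟩
      · refine ⟨len, x, by omega, by rw [hl, he], fun i hi => ?_, h1, h2⟩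
        obtain ⟨s, hs1, hs2⟩ := hs i hi
        exact ⟨s, by omega, hs2⟩
      · refine ⟨len + 1, fun i => if i ≤ len then x i else w (t + 1), by omega, by simp,
          fun i hi => ?_, fun i hi => ?_, fun i j hij hj => ?_⟩
        · by_cases h : i ≤ len
          · obtain ⟨s, hs1, hs2⟩ := hs i h
            exact ⟨s, by omega, by simp [h, hs2]⟩
          · exact ⟨t + 1, le_rfl, by simp [h]⟩
        · by_cases h : i + 1 ≤ len
          · have h' : i ≤ len := by omega
            simp only [h, h', if_true]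
            exact h1 i (by omega)
          · have h' : i = len := by omega
            subst h'
            simp only [h, le_refl, if_true, if_false]
            rw [hl]; exact hd
        · have h' : i ≤ len := by omega
          by_cases h : j ≤ len
          · simp only [h, h', if_true]
            exact h2 i j hij (by omega)
          · simp only [h, h', if_true, if_false]
            obtain ⟨s, hs1, hs2⟩ := hs i h'
            have hj' : j = len + 1 := by omega
            rcases hfar s hs1 with h3 | h3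
            · rw [hs2]; omega
            · rw [← hs2, ← hl] at h3
              rcases Nat.lt_or_ge i len with h4 | h4
              · have := h2 i len h4 (by omega)
                omega
              · omega
  obtain ⟨len, x, hc, -, -, h1, h2⟩ := key T le_rfl
  exact SpreadOn.mono_k (by omega) ⟨x, h1, h2⟩

end Pool.Agent.Work.MP_ede3c6_co
end

-- merged part: Pool.Agent.Work.MP_ede3c6_co.Big
section
set_option autoImplicit false

namespace Pool.Agent.Work.MP_ede3c6_co

open Finset

theorem z2_ne {a b c : ZMod 2} (h1 : a ≠ b) (h2 : b ≠ c) : a = c := by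
  revert a b c; decide

theorem z2_ne' {a b : ZMod 2} (h1 : a ≠ b) : b = a + 1 := by
  revert a b; decide

/-- changing one coordinate `c` on which `p` agrees with `w` moves away from `p` -/
theorem hd_away {α : Type} [Fintype α] [DecidableEq α] (p w w' : α → ZMod 2) (c : α)
    (hoff : ∀ e, e ≠ c → w' e = w e) (hc : w' c ≠ w c) (hp : p c = w c) :
    hammingDist p w' = hammingDist p w + 1 := by
  unfold hammingDist
  have : (Finset.univ.filter fun i => p i ≠ w' i) =
      insert c (Finset.univ.filter fun i => p i ≠ w i) := by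
    ext e
    simp only [Finset.mem_filter, Finset.mem_univ, true_and, Finset.mem_insert]
    by_cases he : e = c
    · subst he
      simp only [true_or, iff_true]
      rw [hp]; exact fun h => hc h.symm
    · rw [hoff e he]; simp [he]
  rw [this, Finset.card_insert_of_notMem]
  simp [hp]

theorem hd_one_iff {α : Type} [Fintype α] [DecidableEq α] (w w' : α → ZMod 2) :
    hammingDist w w' = 1 ↔ ∃ c, w' = w + Pi.single c 1 := by
  constructor
  · intro h
    unfold hammingDist at h
    obtain ⟨c, hc⟩ := Finset.card_eq_one.mp h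
    refine ⟨c, funext fun e => ?_⟩
    have he : e ∈ (Finset.univ.filter fun i => w i ≠ w' i) ↔ e = c := by rw [hc]; simp
    simp only [Finset.mem_filter, Finset.mem_univ, true_and] at he
    by_cases hec : e = c
    · have := he.mpr hec
      subst hec
      simp only [Pi.add_apply, Pi.single_eq_same]
      exact z2_ne' this
    · have : w e = w' e := by
        by_contra h'
        exact hec (he.mp h')
      simp [Pi.single_eq_of_ne hec, this]
  · rintro ⟨c, rfl⟩
    have := hd_away w w (w + Pi.single c 1) c (fun e he => by simp [Pi.single_eq_of_ne he])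
      (by simp) rfl
    rw [this, hammingDist_self]

theorem hd_step {α : Type} [Fintype α] [DecidableEq α] (p w w' : α → ZMod 2)
    (h : hammingDist w w' = 1) :
    hammingDist p w' = hammingDist p w + 1 ∨ hammingDist p w = hammingDist p w' + 1 := by
  obtain ⟨c, rfl⟩ := (hd_one_iff w w').mp h
  by_cases hp : p c = w c
  · left
    exact hd_away p w _ c (fun e he => by simp [Pi.single_eq_of_ne he]) (by simp) hp
  · right
    refine hd_away p _ w c (fun e he => by simp [Pi.single_eq_of_ne he]) (by simp) ?_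
    simp only [Pi.add_apply, Pi.single_eq_same]
    exact z2_ne' (fun h => hp h.symm)

theorem hd_parity {α : Type} [Fintype α] [DecidableEq α] (g : ℕ → (α → ZMod 2)) (M : ℕ)
    (h1 : ∀ i, i + 1 < M → hammingDist (g i) (g (i + 1)) = 1) (i d : ℕ) (hd : i + d < M) :
    hammingDist (g i) (g (i + d)) % 2 = d % 2 := by
  induction d with
  | zero => simp
  | succ d ih =>
    have := ih (by omega)
    rcases hd_step (g i) (g (i + d)) (g (i + d + 1)) (h1 _ (by omega)) with h | h
    · rw [← add_assoc]; omega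
    · rw [← add_assoc]; omega

theorem exists_psi (m r : ℕ) (h : m ≤ 2 ^ r) :
    ∃ ψ : (Fin m → ZMod 2) → (Fin r → ZMod 2), ∀ u v, hammingDist u v = 2 → ψ u ≠ ψ v := by
  have hc : Fintype.card (Fin m) ≤ Fintype.card (Fin r → ZMod 2) := by
    simp [h]
  obtain ⟨hh⟩ := Function.Embedding.nonempty_of_card_le hc
  refine ⟨fun u b => ∑ i, u i * hh i b, fun u v huv he => ?_⟩
  unfold hammingDist at huv
  obtain ⟨i, j, hij, hs⟩ := Finset.card_eq_two.mp huv
  apply hij
  apply hh.injective
  funext b
  have h1 : ∑ e, (u e - v e) * hh e b = 0 := by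
    have : ∑ i, u i * hh i b = ∑ i, v i * hh i b := congrFun he b
    simp only [sub_mul, Finset.sum_sub_distrib]
    rw [this, sub_self]
  have h2 : ∑ e, (u e - v e) * hh e b = ∑ e ∈ ({i, j} : Finset (Fin m)), (u e - v e) * hh e b := by
    symm
    apply Finset.sum_subset (Finset.subset_univ _)
    intro e _ he'
    rw [← hs] at he'
    simp only [Finset.mem_filter, Finset.mem_univ, true_and, not_not] at he'
    rw [he']; simp
  have hi : u i ≠ v i := by
    have : i ∈ (Finset.univ.filter fun e => u e ≠ v e) := by rw [hs]; simp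
    simpa using this
  have hj : u j ≠ v j := by
    have : j ∈ (Finset.univ.filter fun e => u e ≠ v e) := by rw [hs]; simp
    simpa using this
  rw [h2, Finset.sum_pair hij] at h1
  revert h1 hi hj
  generalize u i = a1
  generalize v i = a2
  generalize u j = a3
  generalize v j = a4
  generalize hh i b = a5
  generalize hh j b = a6
  revert a1 a2 a3 a4 a5 a6
  decide

/-- position of a register bit -/
def pos (r : ℕ) : Fin r ⊕ Fin r → ℕ := Sum.elim (fun b => (b : ℕ)) (fun b => r + (b : ℕ))

def bit (r : ℕ) : Fin r ⊕ Fin r → Fin r := Sum.elim id id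

/-- two registers in transition from `u` to `v` -/
def trans (r : ℕ) (u v : Fin r → ZMod 2) (s : ℕ) : Fin r ⊕ Fin r → ZMod 2 :=
  fun ρ => if pos r ρ < s then v (bit r ρ) else u (bit r ρ)

def cst (r : ℕ) (u : Fin r → ZMod 2) : Fin r ⊕ Fin r → ZMod 2 := fun ρ => u (bit r ρ)

theorem trans_zero (r : ℕ) (u v : Fin r → ZMod 2) : trans r u v 0 = cst r u := by
  funext ρ; simp [trans, cst]

theorem trans_end (r : ℕ) (u v : Fin r → ZMod 2) : trans r u v (2 * r) = cst r v := by
  funext ρ
  have : pos r ρ < 2 * r := by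
    rcases ρ with b | b <;> simp only [pos, Sum.elim_inl, Sum.elim_inr] <;> omega
  simp [trans, cst, this]

theorem trans_ne (r : ℕ) (u v z : Fin r → ZMod 2) (s : ℕ) (hu : u ≠ z) (hv : v ≠ z) :
    trans r u v s ≠ cst r z := by
  intro h
  rcases le_or_gt s r with hs | hs
  · apply hu
    funext b
    have := congrFun h (Sum.inr b)
    have h' : ¬ r + (b : ℕ) < s := by omega
    simpa [trans, cst, pos, bit, h'] using this
  · apply hv
    funext b
    have := congrFun h (Sum.inl b)
    have h' : (b : ℕ) < s := by omega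
    simpa [trans, cst, pos, bit, h'] using this

theorem cst_ne (r : ℕ) (u z : Fin r → ZMod 2) (hu : u ≠ z) : cst r u ≠ cst r z := by
  rw [← trans_zero r u u]
  exact trans_ne r u u z 0 hu hu

theorem pos_inj (r : ℕ) : Function.Injective (pos r) := by
  rintro (a | a) (b | b) h <;> simp only [pos, Sum.elim_inl, Sum.elim_inr] at h
  · rw [Fin.ext h]
  · omega
  · omega
  · rw [Fin.ext (show (a : ℕ) = b by omega)]

theorem trans_step (r : ℕ) (u v : Fin r → ZMod 2) (s : ℕ) (hs : s < 2 * r) :
    trans r u v (s + 1) = trans r u v s ∨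
      ∀ s', s' ≤ s → hammingDist (trans r u v s') (trans r u v (s + 1)) =
        hammingDist (trans r u v s') (trans r u v s) + 1 := by
  obtain ⟨c, hc⟩ : ∃ c, pos r c = s := by
    rcases lt_or_ge s r with h | h
    · exact ⟨Sum.inl ⟨s, h⟩, rfl⟩
    · exact ⟨Sum.inr ⟨s - r, by omega⟩, by simp only [pos, Sum.elim_inr]; omega⟩
  have hoff : ∀ e, e ≠ c → trans r u v (s + 1) e = trans r u v s e := by
    intro e he
    have : pos r e ≠ s := fun h => he (pos_inj r (h.trans hc.symm))
    have h2 : pos r e < s + 1 ↔ pos r e < s := by omega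
    simp only [trans, h2]
  by_cases hcc : trans r u v (s + 1) c = trans r u v s c
  · left
    funext e
    by_cases he : e = c
    · rw [he, hcc]
    · exact hoff e he
  · right
    intro s' hs'
    apply hd_away _ _ _ c hoff hcc
    have h1 : ¬ pos r c < s' := by omega
    have h2 : ¬ pos r c < s := by omega
    simp only [trans, h1, h2, if_false]

theorem spread_big (m r : ℕ) (h : m ≤ 2 ^ r) :
    SpreadOn (Fin m ⊕ ((Fin r ⊕ Fin r) ⊕ (Fin r ⊕ Fin r))) 3 (2 ^ m - 2) := by
  rcases lt_or_ge (2 ^ m) 3 with hm | hm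
  · have : 2 ^ m - 2 = 0 := by omega
    rw [this]
    exact ⟨fun _ => 0, fun i hi => by omega, fun i j _ hj => by omega⟩
  obtain ⟨ψ, hψ⟩ := exists_psi m r h
  have hg := spread_pow 1 0 m le_rfl
  have e1 : (0 + 1) * 2 ^ m + 1 - 1 = 2 ^ m := by omega
  rw [e1] at hg
  obtain ⟨g, g1, g2⟩ := hg.to_fin (n := m) (by simp)
  have gne : ∀ i j, i < j → j < 2 ^ m → 1 ≤ hammingDist (g i) (g j) := by
    intro i j hij hj
    have := g2 i j hij hj
    omega
  have gpar : ∀ i j, i ≤ j → j < 2 ^ m → hammingDist (g i) (g j) % 2 = (j - i) % 2 := by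
    intro i j hij hj
    obtain ⟨d, rfl⟩ := Nat.exists_eq_add_of_le hij
    rw [hd_parity g _ g1 i d hj]
    congr 1; omega
  let bank : ℕ → ℕ → ℕ → (Fin r ⊕ Fin r → ZMod 2) := fun β i s =>
    if i % 2 = β then cst r (ψ (g (i + 1))) else trans r (ψ (g i)) (ψ (g (i + 2))) s
  let pt : ℕ → ℕ → (Fin m ⊕ ((Fin r ⊕ Fin r) ⊕ (Fin r ⊕ Fin r)) → ZMod 2) := fun i s =>
    Sum.elim (g (i + 1)) (Sum.elim (bank 0 i s) (bank 1 i s))
  have hpt : ∀ i s j s', hammingDist (pt i s) (pt j s') = hammingDist (g (i + 1)) (g (j + 1)) +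
      (hammingDist (bank 0 i s) (bank 0 j s') + hammingDist (bank 1 i s) (bank 1 j s')) := by
    intro i s j s'
    simp only [pt, hd_sum]
  -- far segments
  have far : ∀ i s j s', i + 2 ≤ j → j + 2 < 2 ^ m → 3 ≤ hammingDist (pt i s) (pt j s') := by
    intro i s j s' hij hj
    rw [hpt]
    have d1 := gne (i + 1) (j + 1) (by omega) (by omega)
    have p1 := gpar (i + 1) (j + 1) (by omega) (by omega)
    rcases lt_or_ge (hammingDist (g (i + 1)) (g (j + 1))) 3 with d3 | d3
    swap
    · omega
    rcases Nat.lt_or_ge (hammingDist (g (i + 1)) (g (j + 1))) 2 with d2 | d2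
    · have dd : hammingDist (g (i + 1)) (g (j + 1)) = 1 := by omega
      have hpar : i % 2 ≠ j % 2 := by omega
      have q1 : ψ (g j) ≠ ψ (g (i + 1)) := by
        apply hψ
        rw [hammingDist_comm]
        have a1 := gne (i + 1) j (by omega) (by omega)
        have a2 := hd_step (g (i + 1)) (g j) (g (j + 1)) (g1 j (by omega))
        omega
      have q2 : ψ (g (j + 2)) ≠ ψ (g (i + 1)) := by
        apply hψ
        rw [hammingDist_comm]
        have a1 := gne (i + 1) (j + 2) (by omega) (by omega)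
        have a2 := hd_step (g (i + 1)) (g (j + 1)) (g (j + 1 + 1)) (g1 (j + 1) (by omega))
        have e : j + 1 + 1 = j + 2 := rfl
        rw [e] at a2
        omega
      have q3 : ψ (g i) ≠ ψ (g (j + 1)) := by
        apply hψ
        have a1 := gne i (j + 1) (by omega) (by omega)
        have a2 := hd_step (g (j + 1)) (g i) (g (i + 1)) (g1 i (by omega))
        rw [hammingDist_comm (g (j + 1)), hammingDist_comm (g (j + 1))] at a2
        omega
      have q4 : ψ (g (i + 2)) ≠ ψ (g (j + 1)) := by
        apply hψ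
        have a1 := gne (i + 2) (j + 1) (by omega) (by omega)
        have a2 := hd_step (g (j + 1)) (g (i + 1)) (g (i + 1 + 1)) (g1 (i + 1) (by omega))
        have e : i + 1 + 1 = i + 2 := rfl
        rw [e, hammingDist_comm (g (j + 1)), hammingDist_comm (g (j + 1))] at a2
        omega
      have b1 : 0 < hammingDist (bank (i % 2) i s) (bank (i % 2) j s') := by
        rw [hammingDist_pos]
        simp only [bank, if_true, hpar.symm, if_false]
        exact (trans_ne r _ _ _ s' q1 q2).symm
      have b2 : 0 < hammingDist (bank (j % 2) i s) (bank (j % 2) j s') := by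
        rw [hammingDist_pos]
        simp only [bank, if_true, hpar, if_false]
        exact trans_ne r _ _ _ s q3 q4
      rcases Nat.mod_two_eq_zero_or_one i with hi | hi
      · have hj' : j % 2 = 1 := by omega
        rw [hi] at b1; rw [hj'] at b2; omega
      · have hj' : j % 2 = 0 := by omega
        rw [hi] at b1; rw [hj'] at b2; omega
    · have dd : hammingDist (g (i + 1)) (g (j + 1)) = 2 := by omega
      have hpar : j % 2 = i % 2 := by omega
      have b1 : 0 < hammingDist (bank (i % 2) i s) (bank (i % 2) j s') := by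
        rw [hammingDist_pos]
        simp only [bank, if_true, hpar]
        exact cst_ne r _ _ (hψ _ _ dd)
      rcases Nat.mod_two_eq_zero_or_one i with hi | hi
      · rw [hi] at b1; omega
      · rw [hi] at b1; omega
  -- the bank of the parity of `i` is constant, the other is in transition
  have bank_c : ∀ i s, bank (i % 2) i s = cst r (ψ (g (i + 1))) := by
    intro i s; simp only [bank, if_true]
  have bank_t : ∀ i s, bank ((i + 1) % 2) i s = trans r (ψ (g i)) (ψ (g (i + 2))) s := by
    intro i s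
    have : i % 2 ≠ (i + 1) % 2 := by omega
    simp only [bank, this, if_false]
  have hpt' : ∀ (β : ℕ) i s j s', hammingDist (pt i s) (pt j s') =
      hammingDist (g (i + 1)) (g (j + 1)) +
      (hammingDist (bank (β % 2) i s) (bank (β % 2) j s') +
        hammingDist (bank ((β + 1) % 2) i s) (bank ((β + 1) % 2) j s')) := by
    intro β i s j s'
    rw [hpt]
    rcases Nat.mod_two_eq_zero_or_one β with hβ | hβ
    · have : (β + 1) % 2 = 1 := by omega
      rw [hβ, this]
    · have : (β + 1) % 2 = 0 := by omega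
      rw [hβ, this, add_comm (hammingDist (bank 1 i s) _)]
  have hL : 0 < 2 * r + 1 := by omega
  have key := spread_of_ticks (fun t => pt (t / (2 * r + 1)) (t % (2 * r + 1)))
    (fun t => t / (2 * r + 1)) ((2 ^ m - 3) * (2 * r + 1)) (by simp) ?_
  · simp only [Nat.mul_div_cancel _ hL] at key
    exact key.mono_k (by omega)
  intro t ht
  have hj : t / (2 * r + 1) < 2 ^ m - 3 := by
    rw [Nat.div_lt_iff_lt_mul hL]; exact ht
  have hs : t % (2 * r + 1) < 2 * r + 1 := Nat.mod_lt _ hL
  have hprev : ∀ s, s ≤ t → s / (2 * r + 1) < t / (2 * r + 1) ∨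
      (s / (2 * r + 1) = t / (2 * r + 1) ∧ s % (2 * r + 1) ≤ t % (2 * r + 1)) := by
    intro s hst
    have a1 : s / (2 * r + 1) ≤ t / (2 * r + 1) := Nat.div_le_div_right hst
    rcases a1.lt_or_eq with a2 | a2
    · exact Or.inl a2
    · right
      refine ⟨a2, ?_⟩
      have b1 := Nat.div_add_mod s (2 * r + 1)
      have b2 := Nat.div_add_mod t (2 * r + 1)
      rw [a2] at b1
      omega
  rcases lt_or_ge (t % (2 * r + 1)) (2 * r) with hc | hc
  · have n1 : (t + 1) / (2 * r + 1) = t / (2 * r + 1) ∧
        (t + 1) % (2 * r + 1) = t % (2 * r + 1) + 1 := by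
      rw [Nat.div_mod_unique hL]
      have b2 := Nat.div_add_mod t (2 * r + 1)
      constructor <;> omega
    simp only [n1.1, n1.2]
    generalize t / (2 * r + 1) = j at *
    generalize t % (2 * r + 1) = s at *
    rcases trans_step r (ψ (g j)) (ψ (g (j + 2))) s hc with hst | hst
    · left
      refine ⟨?_, le_rfl⟩
      rw [← hammingDist_eq_zero, hpt' j, bank_c, bank_c, bank_t, bank_t, hst]
      simp
    · right
      refine ⟨?_, by omega, fun s0 hs0 => ?_⟩
      · rw [hpt' j, bank_c, bank_c, bank_t, bank_t, hst s le_rfl]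
        simp
      · have hp := hprev s0 hs0
        generalize s0 / (2 * r + 1) = i at *
        generalize s0 % (2 * r + 1) = s' at *
        rcases hp with hp | ⟨hp, hp'⟩
        · rcases Nat.lt_or_ge (i + 1) j with hq | hq
          · left; exact far i s' j (s + 1) (by omega) (by omega)
          · right
            have hq' : j = i + 1 := by omega
            subst hq'
            have e : (i + 1 + 1) % 2 = i % 2 := by omega
            have hb : bank ((i + 1 + 1) % 2) i s' =
                trans r (ψ (g (i + 1))) (ψ (g (i + 1 + 2))) 0 := by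
              rw [e, bank_c, trans_zero]
            rw [hpt' (i + 1), hpt' (i + 1), bank_c, bank_c, bank_t (i + 1), bank_t (i + 1), hb,
              hst 0 (by omega)]
            omega
        · right
          subst hp
          rw [hpt' i, hpt' i, bank_c, bank_c, bank_c, bank_t, bank_t, bank_t, hst s' hp']
          omega
  · have hc' : t % (2 * r + 1) = 2 * r := by omega
    have n1 : (t + 1) / (2 * r + 1) = t / (2 * r + 1) + 1 ∧ (t + 1) % (2 * r + 1) = 0 := by
      rw [Nat.div_mod_unique hL]
      have b2 := Nat.div_add_mod t (2 * r + 1)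
      constructor
      · rw [mul_add]; omega
      · omega
    simp only [n1.1, n1.2, hc']
    generalize t / (2 * r + 1) = j at *
    have e : (j + 1 + 1) % 2 = j % 2 := by omega
    have c1 : bank (j % 2) (j + 1) 0 = cst r (ψ (g (j + 1))) := by
      rw [← e, bank_t, trans_zero]
    have c2 : bank ((j + 1) % 2) (j + 1) 0 = trans r (ψ (g j)) (ψ (g (j + 2))) (2 * r) := by
      rw [bank_c, trans_end]
    have c3 := g1 (j + 1) (by omega)
    right
    refine ⟨?_, le_rfl, fun s0 hs0 => ?_⟩
    · rw [hpt' j, c1, c2, bank_c, bank_t, c3]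
      simp
    · have hp := hprev s0 hs0
      generalize s0 / (2 * r + 1) = i at *
      generalize s0 % (2 * r + 1) = s' at *
      rcases hp with hp | ⟨hp, -⟩
      · left; exact far i s' (j + 1) 0 (by omega) (by omega)
      · right
        subst hp
        rw [hpt' i, hpt' i, c1, c2, bank_c, bank_c, bank_t, bank_t, c3]
        simp only [hammingDist_self]
        omega

theorem spread_poly (n k : ℕ) (h : 16 * n ^ 4 * (k + 2) ≤ 2 ^ n) (hn : 1 ≤ n) :
    SpreadOn (Fin n) 3 k := by
  obtain ⟨r, hr1, hr2⟩ : ∃ r, n ≤ 2 ^ r ∧ 2 ^ r ≤ 2 * n := by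
    refine ⟨Nat.log 2 n + 1, (Nat.lt_pow_succ_log_self (by norm_num) n).le, ?_⟩
    have := Nat.pow_log_le_self 2 (show n ≠ 0 by omega)
    rw [pow_succ]; omega
  have h4 : 2 ^ (4 * r) ≤ 16 * n ^ 4 := by
    calc 2 ^ (4 * r) = (2 ^ r) ^ 4 := by rw [← pow_mul, mul_comm]
      _ ≤ (2 * n) ^ 4 := Nat.pow_le_pow_left hr2 4
      _ = 16 * n ^ 4 := by ring
  have h5 : 2 ^ (4 * r) * (k + 2) ≤ 2 ^ n := le_trans (Nat.mul_le_mul_right _ h4) h
  have h6 : 4 * r ≤ n := by
    have : 2 ^ (4 * r) ≤ 2 ^ n := le_trans (Nat.le_mul_of_pos_right _ (by omega)) h5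
    exact (Nat.pow_le_pow_iff_right (by norm_num)).mp this
  have h7 : k + 2 ≤ 2 ^ (n - 4 * r) := by
    have e : 2 ^ n = 2 ^ (4 * r) * 2 ^ (n - 4 * r) := by
      rw [← pow_add]; congr 1; omega
    rw [e] at h5
    exact Nat.le_of_mul_le_mul_left h5 (by positivity)
  refine ((spread_big (n - 4 * r) r (by omega)).to_fin ?_).mono_k (by omega)
  simp only [Fintype.card_sum, Fintype.card_fin]
  omega

theorem spread_third (n k : ℕ) (h : k + 2 ≤ (n % 3 + 3) * 2 ^ (n / 3)) :
    SpreadOn (Fin n) 3 k := by
  refine ((spread_pow 3 (n % 3) (n / 3) (by norm_num)).to_fin ?_).mono_k (by omega)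
  simp only [Fintype.card_fin]
  omega

end Pool.Agent.Work.MP_ede3c6_co
end
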