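import Pool.Agent.Work.MP_ede3c6_co.Big

set_option autoImplicit false

namespace Pool.Agent.Work.MP_ede3c6_co

open Finset

/-- The hypercube `Q_n`. -/
def cube (n : ℕ) : SimpleGraph (Fin n → ZMod 2) where
  Adj x y := hammingDist x y = 1
  symm := ⟨fun x y h => by rw [hammingDist_comm]; exact h⟩
  loopless := ⟨fun x h => by simp at h⟩

/-- The caterpillar `C(a 0, …, a (k-1))`: spine vertices `inl i`, leaves `inr ⟨i, l⟩`. -/
def cat (k : ℕ) (a : ℕ → ℕ) : SimpleGraph (Fin k ⊕ (Σ i : Fin k, Fin (a i))) :=
  SimpleGraph.fromRel fun u v =>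
    match u, v with
    | Sum.inl i, Sum.inl j => (i : ℕ) + 1 = j
    | Sum.inl i, Sum.inr p => i = p.1
    | Sum.inr _, _ => False

/-- cubical dimension of the caterpillar -/
noncomputable def cd (k : ℕ) (a : ℕ → ℕ) : ℕ :=
  sInf {n | 1 ≤ n ∧ (cat k a).IsContained (cube n)}

/-- degree of the spine vertex `i` -/
def deg (k : ℕ) (a : ℕ → ℕ) (i : ℕ) : ℕ :=
  a i + (if 0 < i then 1 else 0) + (if i + 1 < k then 1 else 0)

/-- largest degree of a spine vertex -/
def maxDeg (k : ℕ) (a : ℕ → ℕ) : ℕ := (Finset.range k).sup (deg k a)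

/-- the run condition -/
def Run (k : ℕ) (a : ℕ → ℕ) (n : ℕ) : Prop :=
  ∀ i j, i + 2 * j < k → ∑ t ∈ Finset.range (j + 1), deg k a (i + 2 * t) + j ≤ (j + 1) * n

/-- `Q_n` has a path on `k` vertices of spread 3 -/
def Spread (n k : ℕ) : Prop :=
  ∃ x : ℕ → (Fin n → ZMod 2), (∀ i, i + 1 < k → hammingDist (x i) (x (i + 1)) = 1) ∧
    ∀ i j, i < j → j < k → min (j - i) 3 ≤ hammingDist (x i) (x j)

/-- embedding data indexed by naturals -/
def Data (k : ℕ) (a : ℕ → ℕ) (n : ℕ) (x : ℕ → (Fin n → ZMod 2))
    (y : ℕ → ℕ → (Fin n → ZMod 2)) : Prop :=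
  (∀ i j, i < k → j < k → x i = x j → i = j) ∧
  (∀ i j l, i < k → j < k → l < a j → x i ≠ y j l) ∧
  (∀ i j l l', i < k → j < k → l < a i → l' < a j → y i l = y j l' → i = j ∧ l = l') ∧
  (∀ i, i + 1 < k → hammingDist (x i) (x (i + 1)) = 1) ∧
  (∀ i l, i < k → l < a i → hammingDist (x i) (y i l) = 1)

theorem contained_iff (k : ℕ) (a : ℕ → ℕ) (n : ℕ) :
    (cat k a).IsContained (cube n) ↔ ∃ x y, Data k a n x y := by
  constructor
  · rintro ⟨f⟩
    have finj : Function.Injective f := f.injective
    have fadj : ∀ u v, (cat k a).Adj u v → hammingDist (f u) (f v) = 1 := fun u v h =>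
      f.toHom.map_rel h
    refine ⟨fun i => if h : i < k then f (Sum.inl ⟨i, h⟩) else 0,
      fun i l => if h : i < k ∧ l < a i then f (Sum.inr ⟨⟨i, h.1⟩, ⟨l, h.2⟩⟩) else 0,
      ?_, ?_, ?_, ?_, ?_⟩
    · intro i j hi hj h
      simp only [hi, hj, dif_pos] at h
      have := finj h
      simpa using this
    · intro i j l hi hj hl h
      simp only [hi, hj, hl, and_self, dif_pos] at h
      have := finj h
      simp at this
    · intro i j l l' hi hj hl hl' h
      simp only [hi, hj, hl, hl', and_self, dif_pos] at h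
      have h1 := Sum.inr.inj (finj h)
      have h2 : i = j := congrArg (fun p : (Σ i : Fin k, Fin (a i)) => (p.1 : ℕ)) h1
      have h3 : l = l' := congrArg (fun p : (Σ i : Fin k, Fin (a i)) => (p.2 : ℕ)) h1
      exact ⟨h2, h3⟩
    · intro i hi
      have hi' : i < k := by omega
      simp only [hi, hi', dif_pos]
      apply fadj
      simp [cat, SimpleGraph.fromRel_adj]
    · intro i l hi hl
      simp only [hi, hl, and_self, dif_pos]
      apply fadj
      simp [cat, SimpleGraph.fromRel_adj]
  · rintro ⟨x, y, h1, h2, h3, h4, h5⟩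
    let f : Fin k ⊕ (Σ i : Fin k, Fin (a i)) → (Fin n → ZMod 2) :=
      Sum.elim (fun i => x i) (fun p => y p.1 p.2)
    refine ⟨⟨⟨f, ?_⟩, ?_⟩⟩
    · rintro (i | p) (j | q) h
      · simp only [cat, SimpleGraph.fromRel_adj] at h
        show hammingDist (x i) (x j) = 1
        rcases h.2 with h | h
        · rw [← h]; exact h4 i (by rw [h]; exact j.2)
        · rw [hammingDist_comm, ← h]; exact h4 j (by rw [h]; exact i.2)
      · simp only [cat, SimpleGraph.fromRel_adj, or_false] at h
        show hammingDist (x i) (y q.1 q.2) = 1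
        rw [h.2]; exact h5 _ _ q.1.2 q.2.2
      · simp only [cat, SimpleGraph.fromRel_adj, false_or] at h
        show hammingDist (y p.1 p.2) (x j) = 1
        rw [hammingDist_comm, h.2]; exact h5 _ _ p.1.2 p.2.2
      · simp [cat, SimpleGraph.fromRel_adj] at h
    · rintro (i | ⟨i, l⟩) (j | ⟨j, l'⟩) h
      · exact congrArg Sum.inl (Fin.ext (h1 i j i.2 j.2 h))
      · exact absurd h (h2 i j l' i.2 j.2 l'.2)
      · exact absurd h.symm (h2 j i l j.2 i.2 l.2)
      · obtain ⟨e1, e2⟩ := h3 i j l l' i.2 j.2 l.2 l'.2 h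
        obtain rfl : i = j := Fin.ext e1
        obtain rfl : l = l' := Fin.ext e2
        rfl

/-- cube neighbourhood -/
def nb {n : ℕ} (z : Fin n → ZMod 2) : Finset (Fin n → ZMod 2) :=
  Finset.univ.image fun c : Fin n => z + Pi.single c 1

theorem card_nb {n : ℕ} (z : Fin n → ZMod 2) : (nb z).card ≤ n := by
  refine Finset.card_image_le.trans ?_
  simp

theorem mem_nb {n : ℕ} (z w : Fin n → ZMod 2) : w ∈ nb z ↔ hammingDist z w = 1 := by
  rw [hd_one_iff]
  simp only [nb, Finset.mem_image, Finset.mem_univ, true_and]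
  exact ⟨fun ⟨c, h⟩ => ⟨c, h.symm⟩, fun ⟨c, h⟩ => ⟨c, h.symm⟩⟩

theorem ss {n : ℕ} (c : Fin n) :
    (Pi.single c 1 : Fin n → ZMod 2) + Pi.single c 1 = 0 := by
  funext e
  simp only [Pi.add_apply, Pi.zero_apply]
  exact CharTwo.add_self_eq_zero _

theorem single_inj' {n : ℕ} {c e : Fin n}
    (h : (Pi.single c 1 : Fin n → ZMod 2) = Pi.single e 1) : c = e := by
  by_contra hne
  have := congrFun h c
  simp [Pi.single_eq_of_ne hne] at this

theorem two_common {n : ℕ} (u v w : Fin n → ZMod 2) (h1 : hammingDist u v = 1)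
    (h2 : hammingDist v w = 1) (h3 : u ≠ w) : 2 ≤ (nb u ∩ nb w).card := by
  obtain ⟨c, rfl⟩ := (hd_one_iff _ _).mp h1
  obtain ⟨e, rfl⟩ := (hd_one_iff _ _).mp h2
  have hce : c ≠ e := by
    rintro rfl
    apply h3
    rw [add_assoc, ss, add_zero]
  have hne : u + Pi.single c 1 ≠ u + Pi.single e 1 := fun h =>
    hce (single_inj' (add_left_cancel h))
  refine le_trans (Finset.card_pair hne).ge (Finset.card_le_card ?_)
  intro z hz
  simp only [Finset.mem_insert, Finset.mem_singleton] at hz
  simp only [Finset.mem_inter, nb, Finset.mem_image, Finset.mem_univ, true_and]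
  rcases hz with rfl | rfl
  · exact ⟨⟨c, rfl⟩, ⟨e, by rw [add_assoc, ss, add_zero]⟩⟩
  · refine ⟨⟨e, rfl⟩, ⟨c, ?_⟩⟩
    rw [add_assoc, add_comm (Pi.single e 1), ← add_assoc, add_assoc u, ss, add_zero]

theorem run_of_data {k : ℕ} {a : ℕ → ℕ} {n : ℕ} {x : ℕ → (Fin n → ZMod 2)}
    {y : ℕ → ℕ → (Fin n → ZMod 2)} (h : Data k a n x y) : Run k a n := by
  obtain ⟨h1, h2, h3, h4, h5⟩ := h
  let T : ℕ → Finset (Fin n → ZMod 2) := fun i =>
    ((Finset.range (a i)).image (y i) ∪ (if 0 < i then {x (i - 1)} else ∅)) ∪
      (if i + 1 < k then {x (i + 1)} else ∅)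
  have memT : ∀ i z, z ∈ T i ↔ (∃ l, l < a i ∧ y i l = z) ∨ (0 < i ∧ z = x (i - 1)) ∨
      (i + 1 < k ∧ z = x (i + 1)) := by
    intro i z
    by_cases hA : 0 < i <;> by_cases hB : i + 1 < k <;>
      simp only [T, hA, hB, if_true, if_false, Finset.mem_union, Finset.mem_image,
        Finset.mem_range, Finset.mem_singleton, Finset.notMem_empty, true_and, false_and,
        or_false, false_or, or_assoc]
  have cardT : ∀ i, i < k → (T i).card = deg k a i := by
    intro i hi
    have c1 : ((Finset.range (a i)).image (y i)).card = a i := by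
      rw [Finset.card_image_of_injOn, Finset.card_range]
      intro l hl l' hl' e
      exact (h3 i i l l' hi hi (by simpa using hl) (by simpa using hl') e).2
    simp only [T, deg]
    rw [Finset.card_union_of_disjoint, Finset.card_union_of_disjoint, c1]
    · congr 1
      · congr 1
        split_ifs <;> simp
      · split_ifs <;> simp
    · split_ifs with hA
      · rw [Finset.disjoint_singleton_right, Finset.mem_image]
        rintro ⟨l, hl, e⟩
        exact h2 (i - 1) i l (by omega) hi (by simpa using hl) e.symm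
      · simp
    · by_cases hB : i + 1 < k
      · simp only [hB, if_true]
        rw [Finset.disjoint_singleton_right, Finset.mem_union, Finset.mem_image]
        rintro (⟨l, hl, e⟩ | e)
        · exact h2 (i + 1) i l hB hi (by simpa using hl) e.symm
        · by_cases hA : 0 < i
          · simp only [hA, if_true, Finset.mem_singleton] at e
            have := h1 _ _ hB (by omega) e
            omega
          · simp [hA] at e
      · simp [hB]
  have Tnb : ∀ i, i < k → T i ⊆ nb (x i) := by
    intro i hi z hz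
    rw [mem_nb]
    rcases (memT i z).mp hz with ⟨l, hl, rfl⟩ | ⟨hA, rfl⟩ | ⟨hB, rfl⟩
    · exact h5 i l hi hl
    · have := h4 (i - 1) (by omega)
      rw [show i - 1 + 1 = i by omega] at this
      rw [hammingDist_comm]; exact this
    · exact h4 i hB
  have TT : ∀ i j z, i + 2 ≤ j → j < k → z ∈ T i → z ∈ T j → z = x (j - 1) := by
    intro i j z hij hj hz hz'
    rcases (memT i z).mp hz with ⟨l, hl, rfl⟩ | ⟨hA, rfl⟩ | ⟨hB, rfl⟩ <;>
      rcases (memT j _).mp hz' with ⟨l', hl', e⟩ | ⟨hA', e⟩ | ⟨hB', e⟩
    · have := (h3 j i l' l hj (by omega) hl' hl e).1; omega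
    · exact e
    · exact absurd e.symm (h2 _ _ _ hB' (by omega) hl)
    · exact absurd e.symm (h2 _ _ _ (by omega) hj hl')
    · exact e
    · have := h1 _ _ (by omega) hB' e; omega
    · exact absurd e.symm (h2 _ _ _ hB hj hl')
    · exact e
    · have := h1 _ _ hB hB' e; omega
  intro i j hj
  have key : ∀ j, i + 2 * j < k →
      ∑ t ∈ Finset.range (j + 1), deg k a (i + 2 * t) ≤
        ((Finset.range (j + 1)).biUnion fun t => T (i + 2 * t)).card + j ∧
      ((Finset.range (j + 1)).biUnion fun t => nb (x (i + 2 * t))).card + 2 * j ≤ (j + 1) * n := by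
    intro j
    induction j with
    | zero =>
      intro hj
      simp only [zero_add, Finset.range_one, Finset.sum_singleton, Finset.singleton_biUnion,
        mul_zero, add_zero, one_mul]
      exact ⟨(cardT i hj).ge, card_nb _⟩
    | succ j ih =>
      intro hj
      obtain ⟨ih1, ih2⟩ := ih (by omega)
      rw [Finset.sum_range_succ, Finset.range_add_one (n := j + 1), Finset.biUnion_insert,
        Finset.biUnion_insert]
      constructor
      · have e1 := Finset.card_union_add_card_inter (T (i + 2 * (j + 1)))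
          ((Finset.range (j + 1)).biUnion fun t => T (i + 2 * t))
        have e2 : (T (i + 2 * (j + 1)) ∩
            (Finset.range (j + 1)).biUnion fun t => T (i + 2 * t)).card ≤ 1 := by
          refine le_trans (Finset.card_le_card ?_)
            (Finset.card_singleton (x (i + 2 * (j + 1) - 1))).le
          intro z hz
          rw [Finset.mem_inter, Finset.mem_biUnion] at hz
          obtain ⟨hz1, t, ht, hz2⟩ := hz
          rw [Finset.mem_range] at ht
          rw [Finset.mem_singleton]
          exact TT (i + 2 * t) _ z (by omega) hj hz2 hz1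
        rw [cardT _ hj] at e1
        omega
      · have e1 := Finset.card_union_add_card_inter (nb (x (i + 2 * (j + 1))))
          ((Finset.range (j + 1)).biUnion fun t => nb (x (i + 2 * t)))
        have e2 : 2 ≤ (nb (x (i + 2 * (j + 1))) ∩
            (Finset.range (j + 1)).biUnion fun t => nb (x (i + 2 * t))).card := by
          have a1 := two_common (x (i + 2 * j)) (x (i + 2 * j + 1)) (x (i + 2 * j + 1 + 1))
            (h4 _ (by omega)) (h4 _ (by omega))
            (fun e => by have := h1 _ _ (by omega) (by omega) e; omega)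
          refine a1.trans (Finset.card_le_card ?_)
          intro z hz
          rw [Finset.mem_inter] at hz
          rw [Finset.mem_inter, Finset.mem_biUnion]
          exact ⟨hz.2, j, by simp, hz.1⟩
        have e3 := card_nb (x (i + 2 * (j + 1)))
        rw [add_mul (j + 1) 1 n]
        omega
  obtain ⟨k1, k2⟩ := key j hj
  have k3 : ((Finset.range (j + 1)).biUnion fun t => T (i + 2 * t)).card ≤
      ((Finset.range (j + 1)).biUnion fun t => nb (x (i + 2 * t))).card := by
    apply Finset.card_le_card
    intro z hz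
    rw [Finset.mem_biUnion] at hz ⊢
    obtain ⟨t, ht, hz⟩ := hz
    exact ⟨t, ht, Tnb _ (by rw [Finset.mem_range] at ht; omega) hz⟩
  omega

/-- `use i = 1` iff spine vertex `i` is allowed its forward corner -/
def use (k : ℕ) (a : ℕ → ℕ) (n : ℕ) : ℕ → ℕ
  | 0 => if n ≤ deg k a 0 then 1 else 0
  | 1 => if n ≤ deg k a 1 then 1 else 0
  | i + 2 => if n ≤ deg k a (i + 2) + use k a n i then 1 else 0

/-- `back i = 1` iff the backward corner of `i` is taken -/
def back (k : ℕ) (a : ℕ → ℕ) (n i : ℕ) : ℕ := if 2 ≤ i then use k a n (i - 2) else 0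

theorem use_eq (k : ℕ) (a : ℕ → ℕ) (n i : ℕ) :
    use k a n i = if n ≤ deg k a i + back k a n i then 1 else 0 := by
  match i with
  | 0 => simp [use, back]
  | 1 => simp [use, back]
  | i + 2 => simp [use, back]

theorem back_inv (k : ℕ) (a : ℕ → ℕ) (n : ℕ) (i : ℕ) :
    ∃ i0 j, i0 + 2 * j = i ∧
      (j + 1) * n + (deg k a i + back k a n i) ≤
        ∑ t ∈ Finset.range (j + 1), deg k a (i0 + 2 * t) + j + n := by
  induction i using Nat.strong_induction_on with
  | _ i ih =>
    by_cases hb : back k a n i = 0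
    · refine ⟨i, 0, rfl, ?_⟩
      simp [hb]; omega
    · have h2 : 2 ≤ i := by
        by_contra h
        simp [back, h] at hb
      have e : back k a n i = use k a n (i - 2) := by simp [back, h2]
      obtain ⟨i0, j, e1, e2⟩ := ih (i - 2) (by omega)
      refine ⟨i0, j + 1, by omega, ?_⟩
      rw [Finset.sum_range_succ, show i0 + 2 * (j + 1) = i by omega, add_mul (j + 1) 1 n]
      rw [e] at hb ⊢
      rw [use_eq] at hb ⊢
      split_ifs at hb ⊢ with h
      · omega
      · exact absurd rfl hb

theorem data_of_run {k : ℕ} {a : ℕ → ℕ} {n : ℕ} (hS : Spread n k) (hR : Run k a n) :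
    ∃ x y, Data k a n x y := by
  obtain ⟨x, h1, h2⟩ := hS
  have hfit : ∀ i, i < k → deg k a i + back k a n i ≤ n := by
    intro i hi
    obtain ⟨i0, j, e1, e2⟩ := back_inv k a n i
    have := hR i0 j (by omega)
    omega
  have hdir : ∀ i, ∃ s : Finset (Fin n), s.card ≤ (if i + 1 < k then 1 else 0) ∧
      ∀ c, i + 1 < k → x (i + 1) = x i + Pi.single c 1 → c ∈ s := by
    intro i
    by_cases hi : i + 1 < k
    · obtain ⟨c, hc⟩ := (hd_one_iff _ _).mp (h1 i hi)
      refine ⟨{c}, by simp [hi], fun e _ he => ?_⟩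
      rw [hc] at he
      rw [Finset.mem_singleton]
      exact (single_inj' (add_left_cancel he)).symm
    · exact ⟨∅, by simp, fun c h => absurd h hi⟩
  choose t ht1 ht2 using hdir
  have ht3 : ∀ i, (t i).card ≤ 1 := fun i => (ht1 i).trans (by split_ifs <;> omega)
  let F : ℕ → Finset (Fin n) := fun i =>
    (t i ∪ (if 0 < i then t (i - 1) else ∅)) ∪
      ((if back k a n i = 0 then ∅ else t (i - 2)) ∪ (if use k a n i = 0 then t (i + 1) else ∅))
  have hF : ∀ i, i < k → a i ≤ ((F i)ᶜ).card := by
    intro i hi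
    rw [Finset.card_compl, Fintype.card_fin]
    have c1 : (F i).card ≤ (t i).card + (if 0 < i then t (i - 1) else ∅).card +
        ((if back k a n i = 0 then ∅ else t (i - 2)).card +
          (if use k a n i = 0 then t (i + 1) else ∅).card) :=
      (Finset.card_union_le _ _).trans
        (Nat.add_le_add (Finset.card_union_le _ _) (Finset.card_union_le _ _))
    have c2 := ht1 i
    have c3 : (if 0 < i then t (i - 1) else ∅).card ≤ if 0 < i then 1 else 0 := by
      split_ifs
      · exact ht3 _
      · simp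
    have c4 : (if back k a n i = 0 then ∅ else t (i - 2)).card ≤ back k a n i := by
      split_ifs with h
      · simp
      · have := ht3 (i - 2); omega
    have c5 := hfit i hi
    have c6 : deg k a i + back k a n i + (if use k a n i = 0 then t (i + 1) else ∅).card ≤ n := by
      split_ifs with h
      · have := ht3 (i + 1)
        rw [use_eq] at h
        split_ifs at h with h'
        omega
      · simpa using c5
    unfold deg at c6
    omega
  have hD : ∀ i, ∃ d : ℕ → (Fin n → ZMod 2), i < k →
      (∀ l, l < a i → ∃ c, c ∉ F i ∧ d l = x i + Pi.single c 1) ∧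
      ∀ l l', l < a i → l' < a i → d l = d l' → l = l' := by
    intro i
    by_cases hi : i < k
    · obtain ⟨D, hD1, hD2⟩ := Finset.exists_subset_card_eq (hF i hi)
      let e := D.orderEmbOfFin hD2
      refine ⟨fun l => if h : l < a i then x i + Pi.single (e ⟨l, h⟩) 1 else 0, fun _ =>
        ⟨fun l hl => ⟨e ⟨l, hl⟩, ?_, by simp [hl]⟩, fun l l' hl hl' h => ?_⟩⟩
      · exact Finset.mem_compl.mp (hD1 (D.orderEmbOfFin_mem hD2 _))
      · simp only [hl, hl', dif_pos] at h
        have := e.injective (single_inj' (add_left_cancel h))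
        simpa using this
    · exact ⟨fun _ => 0, fun h => absurd h hi⟩
  choose y hy using hD
  have hy1 : ∀ i l, i < k → l < a i → hammingDist (x i) (y i l) = 1 := by
    intro i l hi hl
    obtain ⟨c, -, hc⟩ := (hy i hi).1 l hl
    exact (hd_one_iff _ _).mpr ⟨c, hc⟩
  have hlt : ∀ i j l l', i < j → j < k → l < a i → l' < a j → y i l ≠ y j l' := by
    intro i j l l' hij hj hl hl' e
    have d1 := hy1 i l (by omega) hl
    have d2 := hy1 j l' hj hl'
    rw [← e, hammingDist_comm] at d2
    have d3 := hd_step (x i) _ _ d2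
    have d4 := h2 i j hij hj
    have hj' : j = i + 2 := by
      by_contra hne
      rcases Nat.lt_or_ge (i + 1) j with h | h
      · omega
      · have : j = i + 1 := by omega
        subst this
        have := h1 i hj
        omega
    subst hj'
    obtain ⟨c, hc1, hc2⟩ := (hy i (by omega)).1 l hl
    obtain ⟨c', hc1', hc2'⟩ := (hy (i + 2) hj).1 l' hl'
    obtain ⟨p, hp⟩ := (hd_one_iff _ _).mp (h1 i (by omega))
    obtain ⟨q, hq⟩ := (hd_one_iff _ _).mp (h1 (i + 1) hj)
    have hp' := ht2 i p (by omega) hp
    have hq' := ht2 (i + 1) q hj hq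
    have hcp : c ≠ p := by
      rintro rfl
      exact hc1 (by simp [F, hp'])
    have hcq : c' ≠ q := by
      rintro rfl
      exact hc1' (by simp [F, hq'])
    have e' : (Pi.single c 1 : Fin n → ZMod 2) = Pi.single p 1 + Pi.single q 1 + Pi.single c' 1 := by
      have e2 : x (i + 2) = x i + Pi.single p 1 + Pi.single q 1 := by rw [← hp]; exact hq
      rw [hc2, hc2', e2, add_assoc, add_assoc, ← add_assoc (Pi.single p 1)] at e
      exact add_left_cancel e
    have hpq : p ≠ q := by
      rintro rfl
      have e2 : x (i + 2) = x i := by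
        have e3 : x (i + 2) = x i + Pi.single p 1 + Pi.single p 1 := by rw [← hp]; exact hq
        rw [e3, add_assoc, ss, add_zero]
      rw [e2, hammingDist_self] at d4
      omega
    have hc'p : c' = p := by
      by_contra hne
      have := congrFun e' p
      simp [Pi.single_eq_of_ne hcp.symm, Pi.single_eq_of_ne hpq,
        Pi.single_eq_of_ne (Ne.symm hne)] at this
    have hcq' : c = q := by
      by_contra hne
      have := congrFun e' q
      simp [Pi.single_eq_of_ne hcq.symm, Pi.single_eq_of_ne hpq.symm,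
        Pi.single_eq_of_ne (Ne.symm hne)] at this
    subst hc'p hcq'
    by_cases hu : use k a n i = 0
    · exact hc1 (by simp [F, hu, hq'])
    · have hb : back k a n (i + 2) ≠ 0 := by simpa [back] using hu
      exact hc1' (by simp [F, hb, hp'])
  refine ⟨x, y, ?_, ?_, ?_, h1, hy1⟩
  · intro i j hi hj e
    rcases lt_trichotomy i j with h | h | h
    · have := h2 i j h hj
      rw [e, hammingDist_self] at this; omega
    · exact h
    · have := h2 j i h hi
      rw [e, hammingDist_self] at this; omega
  · intro i j l hi hj hl e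
    have d1 := hy1 j l hj hl
    obtain ⟨c, hc1, hc2⟩ := (hy j hj).1 l hl
    rw [← e] at d1 hc2
    rcases lt_trichotomy i j with h | h | h
    · have := h2 i j h hj
      rw [hammingDist_comm] at this
      have hj' : j = i + 1 := by omega
      subst hj'
      have e2 : x (i + 1) = x i + Pi.single c 1 := by rw [hc2, add_assoc, ss, add_zero]
      have := ht2 i c hj e2
      exact hc1 (by simp [F, this])
    · rw [h, hammingDist_self] at d1; omega
    · have := h2 j i h hi
      have hj' : i = j + 1 := by omega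
      subst hj'
      have := ht2 j c hi hc2
      exact hc1 (by simp [F, this])
  · intro i j l l' hi hj hl hl' e
    rcases lt_trichotomy i j with h | h | h
    · exact absurd e (hlt i j l l' h hj hl hl')
    · subst h
      exact ⟨rfl, (hy i hi).2 l l' hl hl' e⟩
    · exact absurd e.symm (hlt j i l' l h hi hl' hl)

theorem run_of_lt {k : ℕ} {a : ℕ → ℕ} {n : ℕ} (h : maxDeg k a + 1 ≤ n) : Run k a n := by
  intro i j hij
  have : ∀ t ∈ Finset.range (j + 1), deg k a (i + 2 * t) ≤ maxDeg k a := by
    intro t ht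
    rw [Finset.mem_range] at ht
    exact Finset.le_sup (f := deg k a) (Finset.mem_range.mpr (by omega))
  have h1 := Finset.sum_le_card_nsmul _ _ _ this
  rw [Finset.card_range, smul_eq_mul] at h1
  have h2 : (j + 1) * (maxDeg k a + 1) ≤ (j + 1) * n := Nat.mul_le_mul_left _ h
  rw [mul_add] at h2
  omega

theorem le_of_run {k : ℕ} {a : ℕ → ℕ} {n : ℕ} (h : Run k a n) : maxDeg k a ≤ n := by
  apply Finset.sup_le
  intro i hi
  have := h i 0 (by simpa using hi)
  simpa using this

theorem Spread.succ {n k : ℕ} (h : Spread n k) : Spread (n + 1) k :=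
  SpreadOn.to_fin (α := Fin n) (σ := 3) (by simp) h

end Pool.Agent.Work.MP_ede3c6_co
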