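import Pool.Agent.Work.MP_ede3c6_co.Embed

set_option autoImplicit false

namespace Pool.Agent.Work.MP_ede3c6_co.OldRun

open Pool.Agent.Work.MP_ede3c6_co

/-- For every `n` that is large enough compared with the length of the spine, a caterpillar is a
subgraph of the `n`-cube exactly when the run condition holds at `n`. -/
theorem result (k : ℕ) (a : ℕ → ℕ) (n : ℕ) (hn : 1 ≤ n)
    (hk : k + 2 ≤ (n % 3 + 3) * 2 ^ (n / 3) ∨ 16 * n ^ 4 * (k + 2) ≤ 2 ^ n) :
    (cat k a).IsContained (cube n) ↔ Run k a n := by
  constructor
  · intro h
    obtain ⟨x, y, hd⟩ := (contained_iff k a n).mp h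
    exact run_of_data hd
  · intro hR
    have hS : Spread n k := by
      rcases hk with h | h
      · exact spread_third _ k h
      · exact spread_poly _ k h hn
    exact (contained_iff k a n).mpr (data_of_run hS hR)

end Pool.Agent.Work.MP_ede3c6_co.OldRun
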